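import Pool.Agent.helper92.RC.Spec

set_option autoImplicit false

namespace Pool.Agent.helper92.RC

open scoped commutatorElement

universe u

section

variable {F : Type u} [Group F] (S : St F)
  (q : ∀ i, Piece (fun X hX => ∃ β : Set.Iio (S.al i), Q β.1 X hX) (S.G i))

/-- the product of all factors -/
abbrev STB_H : Type u := ∀ j : (Σ i : S.I, (q i).L), (q j.1).X j.2

/-- restriction to a fibre -/
def STB_res (i : S.I) : STB_H S q →* (∀ l, (q i).X l) where
  toFun x l := x ⟨i, l⟩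
  map_one' := rfl
  map_mul' _ _ := rfl

/-- the subgroup `D` -/
def STB_D : Subgroup (STB_H S q) where
  carrier := {x | ∀ i, STB_res S q i x ∈ (q i).M}
  one_mem' i := by rw [map_one]; exact one_mem _
  mul_mem' {x y} hx hy i := by rw [map_mul]; exact mul_mem (hx i) (hy i)
  inv_mem' {x} hx i := by rw [map_inv]; exact inv_mem (hx i)

/-- the homomorphism `Φ` -/
def STB_Phi : STB_D S q →* (∀ i, S.G i) where
  toFun x i := (q i).θ ⟨STB_res S q i x.1, x.2 i⟩
  map_one' := by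
    funext i
    exact map_one (q i).θ
  map_mul' x y := by
    funext i
    exact map_mul (q i).θ ⟨STB_res S q i x.1, x.2 i⟩ ⟨STB_res S q i y.1, y.2 i⟩

/-- the new chain -/
def STB_C : ℕ → Subgroup (STB_H S q)
  | 0 => ⊤
  | r + 1 => ((S.C r).comap (STB_Phi S q)).map (STB_D S q).subtype

theorem STB_mem (r : ℕ) (x : STB_H S q) :
    x ∈ STB_C S q (r + 1) ↔ ∃ hx : x ∈ STB_D S q, STB_Phi S q ⟨x, hx⟩ ∈ S.C r := by
  constructor
  · rintro ⟨y, hy, rfl⟩
    exact ⟨y.2, hy⟩
  · rintro ⟨hx, h⟩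
    exact ⟨⟨x, hx⟩, h, rfl⟩

theorem STB_D_normal (x y : STB_H S q) (hx : x ∈ STB_D S q) : y * x * y⁻¹ ∈ STB_D S q := by
  intro i
  rw [map_mul, map_mul, map_inv]
  exact (q i).hM.conj_mem _ (hx i) _

theorem STB_isCh : IsCh (STB_C S q) := by
  refine ⟨rfl, fun r => ?_⟩
  cases r with
  | zero =>
    refine ⟨fun x _ => Subgroup.mem_top x, fun x hx y _ => ?_⟩
    obtain ⟨hx1, _⟩ := (STB_mem S q 0 x).1 hx
    refine (STB_mem S q 0 _).2 ⟨STB_D_normal S q x y hx1, ?_⟩
    rw [S.hC.1]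
    exact Subgroup.mem_top _
  | succ r =>
    refine ⟨fun x hx => ?_, fun x hx y hy => ?_⟩
    · obtain ⟨hx1, hx2⟩ := (STB_mem S q (r + 1) x).1 hx
      exact (STB_mem S q r x).2 ⟨hx1, (S.hC.2 r).1 hx2⟩
    · obtain ⟨hx1, hx2⟩ := (STB_mem S q (r + 1) x).1 hx
      obtain ⟨hy1, hy2⟩ := (STB_mem S q r y).1 hy
      refine (STB_mem S q (r + 1) _).2 ⟨STB_D_normal S q x y hx1, ?_⟩
      have e : STB_Phi S q ⟨y * x * y⁻¹, STB_D_normal S q x y hx1⟩ =
          STB_Phi S q ⟨y, hy1⟩ * STB_Phi S q ⟨x, hx1⟩ * (STB_Phi S q ⟨y, hy1⟩)⁻¹ := by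
        rw [← map_inv, ← map_mul, ← map_mul]
        rfl
      rw [e]
      exact (S.hC.2 r).2 _ hx2 _ hy2

/-- the homomorphism of the step -/
def STB_phi : STB_C S q (S.d + 1) →* S.C S.d where
  toFun x := ⟨STB_Phi S q ⟨x.1, ((STB_mem S q S.d x.1).1 x.2).1⟩, ((STB_mem S q S.d x.1).1 x.2).2⟩
  map_one' := by
    apply Subtype.ext
    exact map_one (STB_Phi S q)
  map_mul' x y := by
    apply Subtype.ext
    exact map_mul (STB_Phi S q) ⟨x.1, ((STB_mem S q S.d x.1).1 x.2).1⟩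
      ⟨y.1, ((STB_mem S q S.d y.1).1 y.2).1⟩

theorem STB_phi_apply (x : STB_C S q (S.d + 1)) (i : S.I)
    (h : STB_res S q i x.1 ∈ (q i).M) :
    ((STB_phi S q x : S.C S.d) : ∀ j, S.G j) i = (q i).θ ⟨STB_res S q i x.1, h⟩ := rfl

theorem STB_surj (k : S.C S.d) (hk : ∀ i, (k : ∀ j, S.G j) i ∈ (q i).θ.range) :
    ∃ x, STB_phi S q x = k := by
  choose v hv using hk
  let x : STB_H S q := fun j => (v j.1).1 j.2
  have hxi : ∀ i, STB_res S q i x = (v i).1 := fun i => rfl
  have hxD : x ∈ STB_D S q := fun i => (v i).2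
  have e : STB_Phi S q ⟨x, hxD⟩ = k := by
    funext i
    exact hv i
  have hxC : x ∈ STB_C S q (S.d + 1) := (STB_mem S q S.d x).2 ⟨hxD, by rw [e]; exact k.2⟩
  exact ⟨⟨x, hxC⟩, Subtype.ext e⟩

theorem STB_range_mem (x : STB_C S q (S.d + 1)) (i : S.I) :
    ((STB_phi S q x : S.C S.d) : ∀ j, S.G j) i ∈ (q i).θ.range :=
  ⟨⟨STB_res S q i x.1, ((STB_mem S q S.d x.1).1 x.2).1 i⟩, rfl⟩

theorem STB_transfer (i : S.I) (g b : ℕ → STB_C S q (S.d + 1))
    (h : ∀ l : (q i).L, Solv (fun k => (g k : STB_H S q) ⟨i, l⟩) (fun k => (b k : STB_H S q) ⟨i, l⟩)) :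
    Solv (fun k => ((STB_phi S q (g k) : S.C S.d) : ∀ j, S.G j) i)
      (fun k => ((STB_phi S q (b k) : S.C S.d) : ∀ j, S.G j) i) := by
  intro ε
  choose z hz using fun l => h l ε
  have hg : ∀ k, STB_res S q i (g k).1 ∈ (q i).M := fun k => ((STB_mem S q S.d (g k).1).1 (g k).2).1 i
  have hb : ∀ k, STB_res S q i (b k).1 ∈ (q i).M := fun k => ((STB_mem S q S.d (b k).1).1 (b k).2).1 i
  let Z : ℕ → ∀ l, (q i).X l := fun k l => z l k
  have hZ : ∀ k, Z k = (if ε k then STB_res S q i (g k).1 else 1) * ⁅STB_res S q i (b k).1, Z (k + 1)⁆ := by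
    intro k
    funext l
    have := hz l k
    by_cases hε : ε k
    · simp only [hε, if_true] at this ⊢
      exact this
    · simp only [hε] at this ⊢
      exact this
  have hc : ∀ k, ⁅STB_res S q i (b k).1, Z (k + 1)⁆ ∈ (q i).M := by
    intro k
    rw [commutatorElement_def]
    have e : STB_res S q i (b k).1 * Z (k + 1) * (STB_res S q i (b k).1)⁻¹ * (Z (k + 1))⁻¹ =
        STB_res S q i (b k).1 * (Z (k + 1) * (STB_res S q i (b k).1)⁻¹ * (Z (k + 1))⁻¹) := by group
    rw [e]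
    exact mul_mem (hb k) ((q i).hM.conj_mem _ (inv_mem (hb k)) _)
  have hm : ∀ k, Z k ∈ (q i).M := by
    intro k
    rw [hZ k]
    refine mul_mem ?_ (hc k)
    by_cases hε : ε k
    · simp only [hε, if_true]
      exact hg k
    · simp only [hε]
      exact one_mem _
  refine ⟨fun k => (q i).θ ⟨Z k, hm k⟩, fun k => ?_⟩
  have e1 : (⟨Z k, hm k⟩ : (q i).M) =
      (if ε k then (⟨STB_res S q i (g k).1, hg k⟩ : (q i).M) else 1) *
        ⁅(⟨STB_res S q i (b k).1, hb k⟩ : (q i).M), ⟨Z (k + 1), hm (k + 1)⟩⁆ := by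
    apply Subtype.ext
    have := hZ k
    by_cases hε : ε k
    · simp only [hε, if_true] at this ⊢
      exact this
    · simp only [hε] at this ⊢
      exact this
  have e2 := congrArg (q i).θ e1
  rw [map_mul, map_commutatorElement] at e2
  by_cases hε : ε k
  · simp only [hε, if_true] at e2 ⊢
    exact e2
  · simp only [hε, Bool.false_eq_true, if_false, map_one] at e2 ⊢
    exact e2

/-- the successor for a complete choice of pieces -/
theorem STB_main
    (hxy : ∃ x : S.C S.d, ∃ y : S.C S.d, (∀ i, (x : ∀ j, S.G j) i ∈ (q i).θ.range) ∧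
      (∀ i, (y : ∀ j, S.G j) i ∈ (q i).θ.range) ∧ S.f x * S.f y ≠ S.f y * S.f x) :
    ∃ S' : St F, Stp S S' := by
  obtain ⟨x, y, hx, hy, hne⟩ := hxy
  obtain ⟨x', hx'⟩ := STB_surj S q x hx
  obtain ⟨y', hy'⟩ := STB_surj S q y hy
  refine ⟨{ I := Σ i : S.I, (q i).L
            G := fun j => (q j.1).X j.2
            gG := fun j => (q j.1).gX j.2
            al := fun j => (Classical.choose ((q j.1).hX j.2)).1
            hQ := fun j => Classical.choose_spec ((q j.1).hX j.2)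
            C := STB_C S q
            d := S.d + 1
            hC := STB_isCh S q
            f := S.f.comp (STB_phi S q)
            hf := ⟨S.f x, ⟨x', by rw [MonoidHom.comp_apply, hx']⟩, S.f y,
              ⟨y', by rw [MonoidHom.comp_apply, hy']⟩, hne⟩ }, STB_phi S q, rfl, ?_, ?_⟩
  · refine ⟨fun k hk g => ?_⟩
    obtain ⟨w, rfl⟩ := hk
    refine STB_surj S q _ fun i => ?_
    have h1 := STB_range_mem S q w i
    exact (q i).hθ.conj_mem _ h1 ((g : ∀ j, S.G j) i)
  · intro i g b h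
    refine STB_transfer S q i g b fun l => ?_
    exact h ⟨i, l⟩ (Classical.choose ((q i).hX l)).2

end

theorem STB : STB_stmt.{u} := by
  intro F _ S p hxy
  classical
  let triv : ∀ i, Piece (fun X hX => ∃ β : Set.Iio (S.al i), Q β.1 X hX) (S.G i) := fun i =>
    { L := PEmpty
      X := fun l => l.elim
      gX := fun l => l.elim
      hX := fun l => l.elim
      M := ⊤
      hM := inferInstance
      θ := 1
      hθ := by
        rw [MonoidHom.range_one]
        infer_instance }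
  obtain ⟨x, y, hx, hy, hne⟩ := hxy
  have key : ∀ z : S.C S.d, (∀ i, (p i = none → (z : ∀ j, S.G j) i = 1) ∧
      ∀ q, p i = some q → (z : ∀ j, S.G j) i ∈ q.θ.range) →
      ∀ i, (z : ∀ j, S.G j) i ∈ ((p i).getD (triv i)).θ.range := by
    intro z hz i
    cases h : p i with
    | none =>
      rw [(hz i).1 h]
      exact one_mem _
    | some r => exact (hz i).2 r h
  exact STB_main S (fun i => (p i).getD (triv i)) ⟨x, y, key x hx, key y hy, hne⟩

end Pool.Agent.helper92.RC
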